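import Pool.Agent.MP_c15733_al.H87.Main

/-! The class `KO(Conn ProLie)` is closed under completed quotients. -/

namespace Pool.Agent.Results.MP_c15733_al.KOCompletedQuotients

open Pool.Agent.MP_c15733_al.H87

universe u

theorem result {G : Type u} [Group G] [TopologicalSpace G] [IsTopologicalGroup G]
    [ConnectedSpace G] (hG : IsProLie G) (N : Subgroup (KO G)) (hN : IsClosed (N : Set (KO G))) :
    ∃ (_ : N.Normal) (H : Type u) (_ : Group H) (_ : TopologicalSpace H)
      (_ : IsTopologicalGroup H), ConnectedSpace H ∧ IsProLie H ∧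
      IsCompletion (KO G ⧸ N) (KO H) ∧
      ∀ (B : Type u) [Group B] [TopologicalSpace B] [IsTopologicalGroup B],
        IsCompletion (KO G ⧸ N) B → Nonempty (B ≃ₜ* KO H) := by
  obtain ⟨hn, H, _, _, _, h1, h2, h3⟩ := main hG N hN
  exact ⟨hn, H, _, _, inferInstance, h1, h2, h3, fun B _ _ _ hB => hB.unique h3⟩

end Pool.Agent.Results.MP_c15733_al.KOCompletedQuotients
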